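import Pool.Agent.Y246.LG.Main
import Pool.Agent.Y246.LG.Clo
import Pool.Agent.Y908.LG2.Five
import Pool.Agent.Y908.LG2.Coef
import Pool.Agent.Y908.LG2.Tr

/-!
# The levels at which the iterated Laguerre inequalities hold

`MP_dc22f7_an`.  For locally uniform limits of real polynomials with only real negative zeros the
inequalities of the levels `n = 0, 1, 2` hold (for all `k ≥ n + 1` and `x ≥ 0`); every level
`n ≥ 3` fails, for every `k ≥ n + 1`, already for polynomials and near every function of the class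
of the problem; in that class the levels `n = 1, 2` fail, too.

(helper246 with helpers 458, 532, 555, 689, 908)
-/

set_option autoImplicit false

namespace Pool.Agent.Results.MP_dc22f7_an.Levels

open Polynomial Filter

/-- The iterated Laguerre expression `T_k^{(n)}(φ(x))` (only used in the range `k ≥ n + 1`). -/
noncomputable def laguerreT (φ : ℝ → ℝ) : ℕ → ℕ → ℝ → ℝ
  | 0, k, x => (iteratedDeriv k φ x) ^ 2 - iteratedDeriv (k - 1) φ x * iteratedDeriv (k + 1) φ x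
  | n + 1, k, x => (laguerreT φ n k x) ^ 2 - laguerreT φ n (k - 1) x * laguerreT φ n (k + 1) x

/-- Nonzero real polynomials all of whose complex zeros are real and negative. -/
def NegRoots (p : ℝ[X]) : Prop := p ≠ 0 ∧ ∀ z : ℂ, aeval z p = 0 → z.im = 0 ∧ z.re < 0

/-- Locally uniform limits on `ℂ` of real polynomials with only real negative zeros. -/
def LPplus (φ : ℂ → ℂ) : Prop := ∃ P : ℕ → ℝ[X], (∀ m, NegRoots (P m)) ∧
  TendstoLocallyUniformly (fun m z => aeval z (P m)) φ atTop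

/-- The class of the problem: entire functions with real Taylor coefficients at `0`, of order at
most one, all of whose zeros are real and negative. -/
def InClass (φ : ℂ → ℂ) : Prop :=
  Differentiable ℂ φ ∧ (∀ j : ℕ, (iteratedDeriv j φ 0).im = 0) ∧
  (∀ ε : ℝ, 0 < ε → ∃ A : ℝ, ∀ z : ℂ, ‖φ z‖ ≤ A * Real.exp (‖z‖ ^ (1 + ε))) ∧
  ∀ z : ℂ, φ z = 0 → z.im = 0 ∧ z.re < 0

theorem laguerreT_eq (φ : ℝ → ℝ) (n : ℕ) : ∀ (k : ℕ) (x : ℝ),
    laguerreT φ n k x = Pool.Agent.Y246.LG.laguerreT φ n k x := by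
  induction n with
  | zero => intro k x; rfl
  | succ n ih =>
    intro k x
    simp only [laguerreT, Pool.Agent.Y246.LG.laguerreT, ih]

theorem result :
    (∀ n k : ℕ, n ≤ 2 → n + 1 ≤ k → ∀ φ : ℂ → ℂ, LPplus φ → ∀ x : ℝ, 0 ≤ x →
      0 ≤ laguerreT (fun y : ℝ => (φ y).re) n k x) ∧
    (∀ n k : ℕ, 1 ≤ n → n + 1 ≤ k → ∀ ψ : ℂ → ℂ, InClass ψ →
      ∃ (c : ℝ) (Q : ℝ[X]), 0 ≤ c ∧ (3 ≤ n → c = 0) ∧ NegRoots Q ∧
        InClass (fun z => ψ z * (Complex.exp (-(c : ℂ) * z) * aeval z Q)) ∧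
        ∃ b : ℝ, 0 < b ∧ ∀ x : ℝ, 0 ≤ x → x ≤ b →
          laguerreT (fun y : ℝ => (ψ y * (Complex.exp (-(c : ℂ) * y) * aeval (y : ℂ) Q)).re) n k x
            < 0) := by
  refine ⟨fun n k hn hk φ hφ x hx => ?_, fun n k hn hk ψ hψ => ?_⟩
  · rw [laguerreT_eq]
    refine Pool.Agent.Y246.LG.closure_pos (fun P hP x hx => ?_) hφ hx
    exact Pool.Agent.Y908.LG2.tTR n (Pool.Agent.Y246.LG.levels_at_zero Pool.Agent.Y908.LG2.t
      Pool.Agent.Y908.LG2.tFACT Pool.Agent.Y908.LG2.tCOEF n hn) P k x hP hk hx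
  · obtain ⟨c, Q, hc, hc0, hQ, hcl, b, hb, h⟩ := Pool.Agent.Y246.LG.main n k hn hk ψ hψ
    refine ⟨c, Q, hc, hc0, hQ, hcl, b, hb, fun x h0 h1 => ?_⟩
    rw [laguerreT_eq]
    exact h x h0 h1

end Pool.Agent.Results.MP_dc22f7_an.Levels
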